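import Mathlib

/-!
# Two-transitive subgroups of projective linear groups

Let F be an infinite field and n at least 2. A subgroup G of PGL(n,F) contains PSL(n,F) if and only
if G is 2-transitive on the points of the projective space and either n is at most 3 or G has an
element that fixes a line, does not act as a scalar on it, and acts as a scalar on V/L.

Outline: (1) a subgroup of the affine group of a field whose orbit of 0 is everything, in the form
needed here, contains all translations, so the setwise stabiliser of a line L induces a group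
containing PSL(L) on L; (2) from one element which is trivial on V/L and nonscalar on L one gets,
by commutators and one semisimple element, that the elements of the preimage trivial on V/L induce
all of SL(L) on L, for every L; (3) commutators then give a transvection; (4) 2-transitivity and
duality give all transvections, hence SL(n,F).  In rank 3 the element in (2) is a commutator.
-/

namespace Pool.Agent.Results.MP_c32cfc_al.TwoTransitive
variable {F : Type*} [Field F]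

theorem affine_key (M : Set (F × F))
    (hmul : ∀ m y m' y', (m, y) ∈ M → (m', y') ∈ M → (m * m', m' * y + y') ∈ M)
    (hinv : ∀ m y, (m, y) ∈ M → m ≠ 0 ∧ (m⁻¹, -(m⁻¹ * y)) ∈ M)
    (hall : ∀ y, ∃ m, (m, m * y) ∈ M) : ∀ x, ((1 : F), x) ∈ M := by
  have uadd : ∀ u u', ((1 : F), u) ∈ M → ((1 : F), u') ∈ M → ((1 : F), u + u') ∈ M := by
    intro u u' h h'
    have := hmul _ _ _ _ h h'
    simpa using this
  have uneg : ∀ u, ((1 : F), u) ∈ M → ((1 : F), -u) ∈ M := by
    intro u h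
    have := (hinv _ _ h).2
    simpa using this
  have uscale : ∀ m y u, (m, y) ∈ M → ((1 : F), u) ∈ M → ((1 : F), m * u) ∈ M := by
    intro m y u h hu
    obtain ⟨hm, h'⟩ := hinv _ _ h
    have h1 := hmul _ _ _ _ h' hu
    have h2 := hmul _ _ _ _ h1 h
    have e1 : m⁻¹ * 1 * m = 1 := by field_simp
    have e2 : m * (1 * -(m⁻¹ * y) + u) + y = m * u := by field_simp; ring
    rw [e1, e2] at h2
    exact h2
  have udiff : ∀ k A B, (k, A) ∈ M → (k, B) ∈ M → ((1 : F), A - B) ∈ M := by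
    intro k A B hA hB
    obtain ⟨hk, h'⟩ := hinv _ _ hB
    have h1 := hmul _ _ _ _ hA h'
    have e1 : k * k⁻¹ = 1 := by field_simp
    have e2 : k⁻¹ * A + -(k⁻¹ * B) = k⁻¹ * (A - B) := by ring
    rw [e1, e2] at h1
    have h2 := uscale _ _ _ hA h1
    have e3 : k * (k⁻¹ * (A - B)) = A - B := by field_simp
    rw [e3] at h2
    exact h2
  intro x
  by_cases hL : ∀ m y, (m, y) ∈ M → m = 1
  · obtain ⟨m, hm⟩ := hall x
    have := hL _ _ hm
    subst this
    simpa using hm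
  · push Not at hL
    obtain ⟨m0, y0, h0, hm0⟩ := hL
    have comm : ∀ m y, (m, y) ∈ M → ((1 : F), (m0 - 1) * y - (m - 1) * y0) ∈ M := by
      intro m y h
      have h1 := hmul _ _ _ _ h h0
      have h2 := hmul _ _ _ _ h0 h
      rw [mul_comm m0 m] at h2
      have := udiff _ _ _ h1 h2
      have e : m0 * y + y0 - (m * y0 + y) = (m0 - 1) * y - (m - 1) * y0 := by ring
      rw [e] at this
      exact this
    have hne : m0 - 1 ≠ 0 := sub_ne_zero.2 hm0
    have hy0 : ((1 : F), y0) ∈ M := by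
      obtain ⟨m, hm⟩ := hall (y0 / (m0 - 1))
      have := comm _ _ hm
      have e : (m0 - 1) * (m * (y0 / (m0 - 1))) - (m - 1) * y0 = y0 := by
        field_simp; ring
      rw [e] at this
      exact this
    obtain ⟨m, hm⟩ := hall (x / (m0 - 1))
    have h1 := comm _ _ hm
    have e : (m0 - 1) * (m * (x / (m0 - 1))) - (m - 1) * y0 = m * (x - y0) + y0 := by
      field_simp; ring
    rw [e] at h1
    have h2 := uadd _ _ h1 (uneg _ hy0)
    have e2 : m * (x - y0) + y0 + -y0 = m * (x - y0) := by ring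
    rw [e2] at h2
    obtain ⟨hmne, hminv⟩ := hinv _ _ hm
    have h3 := uscale _ _ _ hminv h2
    have e3 : m⁻¹ * (m * (x - y0)) = x - y0 := by field_simp
    rw [e3] at h3
    have h4 := uadd _ _ h3 hy0
    have e4 : x - y0 + y0 = x := by ring
    rw [e4] at h4
    exact h4

variable {V : Type*} [AddCommGroup V] [Module F V]

/-- linear independence of a pair -/
def Ind (F : Type*) {V : Type*} [Field F] [AddCommGroup V] [Module F V] (a b : V) : Prop :=
  ∀ s t : F, s • a + t • b = 0 → s = 0 ∧ t = 0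

theorem Ind.swap {a b : V} (h : Ind F a b) : Ind F b a := by
  intro s t hst
  rw [add_comm] at hst
  exact (h t s hst).symm

/-- K contains the scalars and is transitive on pairs of distinct points. -/
structure Two (K : Subgroup (V ≃ₗ[F] V)) : Prop where
  scal : ∀ c : F, c ≠ 0 → ∃ g ∈ K, ∀ v, g v = c • v
  two : ∀ a b c d : V, Ind F a b → Ind F c d →
    ∃ g ∈ K, ∃ α β : F, α ≠ 0 ∧ β ≠ 0 ∧ g a = α • c ∧ g b = β • d

theorem trans1 {K : Subgroup (V ≃ₗ[F] V)} (hK : Two K) {a b : V} (hab : Ind F a b) (x : F) :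
    ∃ g ∈ K, g a = a ∧ g b = b + x • a := by
  have key := affine_key (F := F) {q | ∃ g ∈ K, g a = a ∧ g b = q.1 • b + q.2 • a} ?_ ?_ ?_ x
  · obtain ⟨g, hg, h1, h2⟩ := key
    exact ⟨g, hg, h1, by simpa using h2⟩
  · rintro m y m' y' ⟨g, hg, h1, h2⟩ ⟨g', hg', h1', h2'⟩
    refine ⟨g * g', K.mul_mem hg hg', ?_, ?_⟩
    · rw [LinearEquiv.mul_apply, h1', h1]
    · rw [LinearEquiv.mul_apply, h2', map_add, map_smul, map_smul, h1, h2]
      dsimp only
      module
  · rintro m y ⟨g, hg, h1, h2⟩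
    dsimp only at h2
    have hm : m ≠ 0 := by
      rintro rfl
      rw [zero_smul, zero_add] at h2
      have : g b = g (y • a) := by rw [h2, map_smul, h1]
      have := g.injective this
      have h3 := hab y (-1) (by rw [this]; module)
      exact one_ne_zero (neg_eq_zero.1 h3.2)
    refine ⟨hm, g⁻¹, K.inv_mem hg, ?_, ?_⟩
    · rw [LinearEquiv.coe_inv, LinearEquiv.symm_apply_eq]; exact h1.symm
    · rw [LinearEquiv.coe_inv, LinearEquiv.symm_apply_eq]
      dsimp only
      rw [map_add, map_smul, map_smul, h1, h2, smul_add, smul_smul, smul_smul,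
        inv_mul_cancel₀ hm]
      module
  · intro y
    have hab' : Ind F a (b + y • a) := by
      intro s t hst
      have := hab (s + t * y) t (by rw [← hst]; module)
      refine ⟨?_, this.2⟩
      have h1 := this.1
      rw [this.2] at h1
      simpa using h1
    obtain ⟨g, hg, α, β, hα, hβ, h1, h2⟩ := hK.two a b a (b + y • a) hab hab'
    obtain ⟨z, hz, hz'⟩ := hK.scal α⁻¹ (inv_ne_zero hα)
    refine ⟨α⁻¹ * β, z * g, K.mul_mem hz hg, ?_, ?_⟩
    · rw [LinearEquiv.mul_apply, h1, hz', smul_smul, inv_mul_cancel₀ hα, one_smul]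
    · rw [LinearEquiv.mul_apply, h2, hz']
      dsimp only
      module

theorem diagL {K : Subgroup (V ≃ₗ[F] V)} {a b : V}
    (hu : ∀ x : F, ∃ g ∈ K, g a = a ∧ g b = b + x • a)
    (hl : ∀ x : F, ∃ g ∈ K, g b = b ∧ g a = a + x • b) (l : F) (hl0 : l ≠ 0) :
    ∃ g ∈ K, g a = l • a ∧ g b = l⁻¹ • b := by
  have w : ∀ m : F, m ≠ 0 → ∃ g ∈ K, g a = -m⁻¹ • b ∧ g b = m • a := by
    intro m hm
    obtain ⟨g1, h1, h1a, h1b⟩ := hu m
    obtain ⟨g2, h2, h2b, h2a⟩ := hl (-m⁻¹)
    refine ⟨g1 * (g2 * g1), K.mul_mem h1 (K.mul_mem h2 h1), ?_, ?_⟩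
    · simp only [LinearEquiv.mul_apply, h1a, h2a, map_add, map_smul, h1b]
      have : -m⁻¹ • m • a = -a := by rw [smul_smul]; rw [neg_mul, inv_mul_cancel₀ hm]; module
      rw [smul_add, this]; module
    · simp only [LinearEquiv.mul_apply, h1a, h2a, h2b, map_add, map_smul, h1b]
      have : -m⁻¹ • m • a = -a := by rw [smul_smul]; rw [neg_mul, inv_mul_cancel₀ hm]; module
      have e : m • (a + -m⁻¹ • (b + m • a)) = m • a + - b - m • a := by
        rw [smul_add (-m⁻¹), this, smul_add, smul_add, smul_smul, mul_neg, mul_inv_cancel₀ hm]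
        module
      rw [e]; abel_nf
  obtain ⟨g1, h1, h1a, h1b⟩ := w l hl0
  obtain ⟨g2, h2, h2a, h2b⟩ := w (-1) (by simp)
  refine ⟨g1 * g2, K.mul_mem h1 h2, ?_, ?_⟩
  · simp only [LinearEquiv.mul_apply, h2a, map_smul, h1b]
    simp
  · simp only [LinearEquiv.mul_apply, h2b, map_smul, h1a]
    simp


/-- elements of K which act trivially on V / span{a,b} -/
def NL (K : Subgroup (V ≃ₗ[F] V)) (a b : V) : Subgroup (V ≃ₗ[F] V) where
  carrier := {g | g ∈ K ∧ ∀ v, g v - v ∈ Submodule.span F {a, b}}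
  one_mem' := ⟨K.one_mem, fun v => by simp⟩
  mul_mem' := by
    rintro g h ⟨hg, hg'⟩ ⟨hh, hh'⟩
    refine ⟨K.mul_mem hg hh, fun v => ?_⟩
    have e : (g * h) v - v = (g (h v) - h v) + (h v - v) := by
      rw [LinearEquiv.mul_apply]; abel
    rw [e]
    exact Submodule.add_mem _ (hg' _) (hh' _)
  inv_mem' := by
    rintro g ⟨hg, hg'⟩
    refine ⟨K.inv_mem hg, fun v => ?_⟩
    have h := hg' (g⁻¹ v)
    have e : g (g⁻¹ v) = v := by rw [LinearEquiv.coe_inv, LinearEquiv.apply_symm_apply]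
    rw [e] at h
    have e2 : g⁻¹ v - v = -(v - g⁻¹ v) := by abel
    rw [e2]
    exact Submodule.neg_mem _ h

theorem mem_NL {K : Subgroup (V ≃ₗ[F] V)} {a b : V} {g : V ≃ₗ[F] V} :
    g ∈ NL K a b ↔ g ∈ K ∧ ∀ v, g v - v ∈ Submodule.span F {a, b} := Iff.rfl

theorem NL_conj {K : Subgroup (V ≃ₗ[F] V)} {a b c d : V} {g h : V ≃ₗ[F] V} (hg : g ∈ K)
    (hh : h ∈ NL K a b) (hac : g a ∈ Submodule.span F {c, d}) (hbd : g b ∈ Submodule.span F {c, d}) :
    g * h * g⁻¹ ∈ NL K c d := by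
  obtain ⟨hh, hh'⟩ := hh
  refine ⟨K.mul_mem (K.mul_mem hg hh) (K.inv_mem hg), fun v => ?_⟩
  have e : g (g⁻¹ v) = v := by rw [LinearEquiv.coe_inv, LinearEquiv.apply_symm_apply]
  have e1 : (g * h * g⁻¹) v - v = g (h (g⁻¹ v) - g⁻¹ v) := by
    rw [map_sub, e]; rfl
  rw [e1]
  obtain ⟨s, t, hst⟩ := Submodule.mem_span_pair.1 (hh' (g⁻¹ v))
  rw [← hst, map_add, map_smul, map_smul]
  exact Submodule.add_mem _ (Submodule.smul_mem _ _ hac) (Submodule.smul_mem _ _ hbd)

theorem inv_apply_eq' {g : V ≃ₗ[F] V} {v w : V} (h : g w = v) : g⁻¹ v = w := by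
  rw [LinearEquiv.coe_inv, LinearEquiv.symm_apply_eq]; exact h.symm

/-- one line, one basis -/
theorem step2a {K : Subgroup (V ≃ₗ[F] V)} (hK : Two K) {a0 b0 : V} {h : V ≃ₗ[F] V}
    (hh : h ∈ NL K a0 b0) {v0 : V} (hv0 : v0 ∈ Submodule.span F {a0, b0})
    (hns : ∀ c : F, h v0 ≠ c • v0) (l : F) (hl0 : l ≠ 0) (hl4 : l ^ 4 ≠ 1) :
    ∃ a b : V, Ind F a b ∧ ∀ z : F, ∃ e ∈ NL K a b, e a = a + z • b ∧ e b = b := by
  obtain ⟨b1, hb1⟩ : ∃ b1, b1 = h v0 := ⟨_, rfl⟩
  have hb1s : b1 ∈ Submodule.span F {a0, b0} := by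
    have := Submodule.add_mem _ (hh.2 v0) hv0
    rw [sub_add_cancel, ← hb1] at this
    exact this
  have hv00 : v0 ≠ 0 := by
    rintro rfl
    exact hns 0 (by simp)
  have hind : Ind F v0 b1 := by
    intro s t hst
    have ht : t = 0 := by
      by_contra ht
      apply hns (-(t⁻¹ * s))
      rw [← hb1]
      have : t • b1 = -(s • v0) := by rw [eq_neg_iff_add_eq_zero, add_comm]; exact hst
      have h2 : b1 = t⁻¹ • (t • b1) := by rw [smul_smul, inv_mul_cancel₀ ht, one_smul]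
      rw [h2, this]; module
    subst ht
    rw [zero_smul, add_zero] at hst
    exact ⟨(smul_eq_zero.1 hst).resolve_right hv00, rfl⟩
  have hsp : ∀ w ∈ Submodule.span F {a0, b0}, w ∈ Submodule.span F {v0, b1} := by
    obtain ⟨p, q, hpq⟩ := Submodule.mem_span_pair.1 hv0
    obtain ⟨r, s, hrs⟩ := Submodule.mem_span_pair.1 hb1s
    have hdet : p * s - q * r ≠ 0 := by
      intro hdet
      have h1 := hind s (-q) (by
        rw [← hpq, ← hrs]
        have : s • (p • a0 + q • b0) + -q • (r • a0 + s • b0) = (p * s - q * r) • a0 := by module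
        rw [this, hdet, zero_smul])
      have h2 := hind (-r) p (by
        rw [← hpq, ← hrs]
        have : -r • (p • a0 + q • b0) + p • (r • a0 + s • b0) = (p * s - q * r) • b0 := by module
        rw [this, hdet, zero_smul])
      have hq : q = 0 := neg_eq_zero.1 h1.2
      have hp : p = 0 := h2.2
      apply hv00
      rw [← hpq, hp, hq]; simp
    intro w hw
    obtain ⟨x, y, hxy⟩ := Submodule.mem_span_pair.1 hw
    rw [Submodule.mem_span_pair]
    refine ⟨(p * s - q * r)⁻¹ * (x * s - y * r), (p * s - q * r)⁻¹ * (y * p - x * q), ?_⟩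
    rw [← hpq, ← hrs, ← hxy]
    have e : ((p * s - q * r)⁻¹ * (x * s - y * r)) • (p • a0 + q • b0)
      + ((p * s - q * r)⁻¹ * (y * p - x * q)) • (r • a0 + s • b0)
      = ((p * s - q * r)⁻¹ * (p * s - q * r)) • (x • a0 + y • b0) := by module
    rw [e, inv_mul_cancel₀ hdet, one_smul]
  have hN : h ∈ NL K v0 b1 := ⟨hh.1, fun v => hsp _ (hh.2 v)⟩
  obtain ⟨p, q, hpq⟩ : ∃ p q : F, h b1 = p • v0 + q • b1 := by
    have h1 : h b1 ∈ Submodule.span F {v0, b1} := by
      have := Submodule.add_mem _ (hN.2 b1) (Submodule.subset_span (by simp) : b1 ∈ _)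
      rwa [sub_add_cancel] at this
    obtain ⟨p, q, hpq⟩ := Submodule.mem_span_pair.1 h1
    exact ⟨p, q, hpq.symm⟩
  have hp : p ≠ 0 := by
    rintro rfl
    rw [zero_smul, zero_add] at hpq
    have : h b1 = h (q • v0) := by rw [hpq, map_smul, ← hb1]
    have h2 := h.injective this
    have h3 := hind q (-1) (by rw [h2]; module)
    exact one_ne_zero (neg_eq_zero.1 h3.2)
  obtain ⟨D, hD, hDa, hDb⟩ := diagL (K := K) (a := v0) (b := b1) (fun x => trans1 hK hind x)
    (fun x => trans1 hK hind.swap x) l hl0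
  have hDa' : D⁻¹ v0 = l⁻¹ • v0 := inv_apply_eq' (by
    rw [map_smul, hDa, smul_smul, inv_mul_cancel₀ hl0, one_smul])
  have hDb' : D⁻¹ b1 = l • b1 := inv_apply_eq' (by
    rw [map_smul, hDb, smul_smul, mul_inv_cancel₀ hl0, one_smul])
  have hhb : h⁻¹ b1 = v0 := inv_apply_eq' hb1.symm
  have hha : h⁻¹ v0 = p⁻¹ • (b1 - q • v0) := inv_apply_eq' (by
    rw [map_smul, map_sub, map_smul, hpq, ← hb1]
    have : p • v0 + q • b1 - q • b1 = p • v0 := by abel
    rw [this, smul_smul, inv_mul_cancel₀ hp, one_smul])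
  have hav : v0 ∈ Submodule.span F {v0, b1} := Submodule.subset_span (by simp)
  have hbv : b1 ∈ Submodule.span F {v0, b1} := Submodule.subset_span (by simp)
  have hDhD : D * h * D⁻¹ ∈ NL K v0 b1 := NL_conj hD hN
    (by rw [hDa]; exact Submodule.smul_mem _ _ hav) (by rw [hDb]; exact Submodule.smul_mem _ _ hbv)
  set w := D * h * D⁻¹ * h⁻¹ with hw
  have hwN : w ∈ NL K v0 b1 := Subgroup.mul_mem _ hDhD (Subgroup.inv_mem _ hN)
  set τ := p⁻¹ * q * (1 - l⁻¹ * l⁻¹) with hτ
  have hwb : w b1 = (l⁻¹ * l⁻¹) • b1 := by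
    simp only [hw, LinearEquiv.mul_apply, hhb, hDa', map_smul, ← hb1, hDb, smul_smul]
  have hwa : w v0 = (l * l) • v0 + τ • b1 := by
    simp only [hw, LinearEquiv.mul_apply, hha, map_smul, map_sub, hDa', hDb', ← hb1, hDb, hpq,
      map_add, hDa, hτ]
    have e : p⁻¹ • (l • (p • l • v0 + q • l⁻¹ • b1) - q • l⁻¹ • l⁻¹ • b1)
      = (p⁻¹ * p * (l * l)) • v0 + (p⁻¹ * q * (l * l⁻¹ - l⁻¹ * l⁻¹)) • b1 := by module
    rw [e, inv_mul_cancel₀ hp, mul_inv_cancel₀ hl0, one_mul]
  have hll : (l * l) * (l⁻¹ * l⁻¹) = 1 := by field_simp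
  have hwb' : w⁻¹ b1 = (l * l) • b1 := inv_apply_eq' (by
    rw [map_smul, hwb, smul_smul, hll, one_smul])
  have hwa' : w⁻¹ v0 = (l⁻¹ * l⁻¹) • v0 - τ • b1 := inv_apply_eq' (by
    rw [map_sub, map_smul, map_smul, hwa, hwb]
    have e : (l⁻¹ * l⁻¹) • ((l * l) • v0 + τ • b1) - τ • (l⁻¹ * l⁻¹) • b1
      = ((l * l) * (l⁻¹ * l⁻¹)) • v0 := by module
    rw [e, hll, one_smul])
  refine ⟨v0, b1, hind, fun z => ?_⟩
  have hl4' : l⁻¹ * l⁻¹ * (l⁻¹ * l⁻¹) - 1 ≠ 0 := by
    intro h0
    apply hl4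
    have h1 : l⁻¹ * l⁻¹ * (l⁻¹ * l⁻¹) = 1 := sub_eq_zero.1 h0
    calc l ^ 4 = l ^ 4 * (l⁻¹ * l⁻¹ * (l⁻¹ * l⁻¹)) := by rw [h1, mul_one]
      _ = 1 := by field_simp
  obtain ⟨y, hy⟩ : ∃ y, (l⁻¹ * l⁻¹ * (l⁻¹ * l⁻¹) - 1) * y = z :=
    ⟨(l⁻¹ * l⁻¹ * (l⁻¹ * l⁻¹) - 1)⁻¹ * z, by rw [← mul_assoc, mul_inv_cancel₀ hl4', one_mul]⟩
  obtain ⟨L, hL, hLb, hLa⟩ := trans1 hK hind.swap y
  have hLb' : L⁻¹ b1 = b1 := inv_apply_eq' hLb
  have hLa' : L⁻¹ v0 = v0 - y • b1 := inv_apply_eq' (by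
    rw [map_sub, map_smul, hLa, hLb]; abel)
  refine ⟨w * (L * w⁻¹ * L⁻¹), Subgroup.mul_mem _ hwN (NL_conj hL (Subgroup.inv_mem _ hwN)
    (by rw [hLa]; exact Submodule.add_mem _ hav (Submodule.smul_mem _ _ hbv))
    (by rw [hLb]; exact hbv)), ?_, ?_⟩
  · simp only [LinearEquiv.mul_apply, hLa', map_sub, map_smul, map_add, hwa', hwb', hLa, hLb,
      hwa, hwb]
    have e : (l⁻¹ * l⁻¹) • ((l * l) • v0 + τ • b1 + y • (l⁻¹ * l⁻¹) • b1) - τ • (l⁻¹ * l⁻¹) • b1 -
      y • (l * l) • (l⁻¹ * l⁻¹) • b1 = ((l * l) * (l⁻¹ * l⁻¹)) • v0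
        + ((l⁻¹ * l⁻¹ * (l⁻¹ * l⁻¹) - (l * l) * (l⁻¹ * l⁻¹)) * y) • b1 := by module
    rw [e, hll, one_smul, hy]
  · simp only [LinearEquiv.mul_apply, hLb', hwb', map_smul, hLb, hwb]
    rw [smul_smul, hll, one_smul]

theorem step2 {K : Subgroup (V ≃ₗ[F] V)} (hK : Two K) {a1 b1 : V} (h1 : Ind F a1 b1)
    (he : ∀ z : F, ∃ e ∈ NL K a1 b1, e a1 = a1 + z • b1 ∧ e b1 = b1) {a b : V} (hab : Ind F a b)
    (x : F) : ∃ e ∈ NL K a b, e a = a ∧ e b = b + x • a := by
  obtain ⟨g, hg, α, γ, hα, hγ, hgb, hga⟩ := hK.two b1 a1 a b h1.swap hab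
  obtain ⟨e, heN, hea, heb⟩ := he (γ * x * α⁻¹)
  have hav : a ∈ Submodule.span F {a, b} := Submodule.subset_span (by simp)
  have hbv : b ∈ Submodule.span F {a, b} := Submodule.subset_span (by simp)
  have ga' : g⁻¹ a = α⁻¹ • b1 := inv_apply_eq' (by
    rw [map_smul, hgb, smul_smul, inv_mul_cancel₀ hα, one_smul])
  have gb' : g⁻¹ b = γ⁻¹ • a1 := inv_apply_eq' (by
    rw [map_smul, hga, smul_smul, inv_mul_cancel₀ hγ, one_smul])
  refine ⟨g * e * g⁻¹, NL_conj hg heN (by rw [hga]; exact Submodule.smul_mem _ _ hbv)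
    (by rw [hgb]; exact Submodule.smul_mem _ _ hav), ?_, ?_⟩
  · simp only [LinearEquiv.mul_apply, ga', map_smul, heb, hgb, smul_smul, inv_mul_cancel₀ hα,
      one_smul]
  · simp only [LinearEquiv.mul_apply, gb', map_smul, hea, map_add, hgb, hga]
    have e : γ⁻¹ • (γ • b + (γ * x * α⁻¹) • α • a) = (γ⁻¹ * γ) • b +
      ((γ⁻¹ * γ) * (α⁻¹ * α) * x) • a := by module
    rw [e, inv_mul_cancel₀ hγ, inv_mul_cancel₀ hα]; simp

theorem exists_coord {a b : V} (hab : Ind F a b) : ∃ fa fb : V →ₗ[F] F,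
    fa a = 1 ∧ fa b = 0 ∧ fb a = 0 ∧ fb b = 1 := by
  have li : LinearIndependent F ![a, b] := LinearIndependent.pair_iff.2 hab
  let B := Module.Basis.span li
  obtain ⟨f0, hf0⟩ := LinearMap.exists_extend (B.coord 0)
  obtain ⟨f1, hf1⟩ := LinearMap.exists_extend (B.coord 1)
  have h0 : (B 0 : V) = a := by rw [Module.Basis.span_apply]; rfl
  have h1 : (B 1 : V) = b := by rw [Module.Basis.span_apply]; rfl
  have e0 : ∀ w : Submodule.span F (Set.range ![a, b]), f0 (w : V) = B.coord 0 w :=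
    fun w => by rw [← hf0]; rfl
  have e1 : ∀ w : Submodule.span F (Set.range ![a, b]), f1 (w : V) = B.coord 1 w :=
    fun w => by rw [← hf1]; rfl
  refine ⟨f0, f1, ?_, ?_, ?_, ?_⟩
  · rw [← h0, e0]; simp
  · rw [← h1, e0]; simp
  · rw [← h0, e1]; simp
  · rw [← h1, e1]; simp

theorem step3 {K : Subgroup (V ≃ₗ[F] V)} {a b : V} (hab : Ind F a b)
    (hS : ∀ a b : V, Ind F a b → ∀ x : F, ∃ e ∈ NL K a b, e a = a ∧ e b = b + x • a)
    (l : F) (hl0 : l ≠ 0) (hl3 : l ^ 3 ≠ 1) :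
    ∃ (p : V) (f : V →ₗ[F] F), p ≠ 0 ∧ f ≠ 0 ∧ f p = 0 ∧ ∃ g ∈ K, ∀ v, g v = v + f v • p := by
  obtain ⟨fa, fb, haa, hab', hba, hbb⟩ := exists_coord hab
  have hspan : ∀ w ∈ Submodule.span F {a, b}, w = fa w • a + fb w • b := by
    intro w hw
    obtain ⟨x, y, rfl⟩ := Submodule.mem_span_pair.1 hw
    simp [haa, hab', hba, hbb]
  have ha0 : a ≠ 0 := by
    rintro rfl
    rw [map_zero] at haa
    exact zero_ne_one haa
  obtain ⟨g1, hg1, g1a, g1b⟩ := hS a b hab 1
  rw [one_smul] at g1b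
  have hcomm : ∀ x y : V, ({x, y} : Set V) = {y, x} := fun x y => Set.pair_comm x y
  have hNsw : NL K b a = NL K a b := by
    ext g; rw [mem_NL, mem_NL, hcomm]
  obtain ⟨d, hd, hda, hdb⟩ := diagL (K := NL K a b) (a := a) (b := b) (fun x => hS a b hab x)
    (fun x => by rw [← hNsw]; exact hS b a hab.swap x) l hl0
  -- the functionals of g1
  let s : V →ₗ[F] F := fa ∘ₗ ((g1 : V →ₗ[F] V) - LinearMap.id)
  let t : V →ₗ[F] F := fb ∘ₗ ((g1 : V →ₗ[F] V) - LinearMap.id)
  have hs : ∀ v, s v = fa (g1 v - v) := fun v => rfl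
  have ht : ∀ v, t v = fb (g1 v - v) := fun v => rfl
  have hg1v : ∀ v, g1 v = v + s v • a + t v • b := by
    intro v
    have := hspan _ (hg1.2 v)
    rw [← hs, ← ht] at this
    rw [add_assoc, ← this]; abel
  have hsa : s a = 0 := by rw [hs, g1a]; simp
  have hta : t a = 0 := by rw [ht, g1a]; simp
  have hsb : s b = 1 := by rw [hs, g1b]; simp [haa]
  have htb : t b = 0 := by rw [ht, g1b]; simp [hba]
  by_cases ht0 : t = 0
  · refine ⟨a, s, ha0, ?_, hsa, g1, hg1.1, fun v => ?_⟩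
    · intro h0
      rw [h0] at hsb
      exact zero_ne_one hsb
    · rw [hg1v v, ht0]; simp
  · -- g2 = d g1 d⁻¹
    have hda' : d⁻¹ a = l⁻¹ • a := inv_apply_eq' (by
      rw [map_smul, hda, smul_smul, inv_mul_cancel₀ hl0, one_smul])
    have hdb' : d⁻¹ b = l • b := inv_apply_eq' (by
      rw [map_smul, hdb, smul_smul, mul_inv_cancel₀ hl0, one_smul])
    let m : V → V := fun v => d⁻¹ v - v
    have hm : ∀ v, m v = fa (m v) • a + fb (m v) • b := fun v =>
      hspan _ ((Subgroup.inv_mem _ hd).2 v)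
    set g2 := d * g1 * d⁻¹ with hg2
    have hg2v : ∀ v, g2 v = v + (l * (s v + fb (m v))) • a + (l⁻¹ * t v) • b := by
      intro v
      have h1 : d⁻¹ v = v + fa (m v) • a + fb (m v) • b := by
        rw [add_assoc, ← hm v]; simp [m]
      have h2 : d (v + fa (m v) • a + fb (m v) • b) = v := by
        rw [← h1, LinearEquiv.coe_inv, LinearEquiv.apply_symm_apply]
      have h3 : g2 v = d (g1 (v + fa (m v) • a + fb (m v) • b)) := by
        rw [← h1]; rfl
      have h4 : g1 (v + fa (m v) • a + fb (m v) • b) = (v + fa (m v) • a + fb (m v) • b)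
          + (s v + fb (m v)) • a + t v • b := by
        rw [map_add, map_add, map_smul, map_smul, g1a, g1b, hg1v v]; module
      rw [h3, h4, map_add, map_add, h2, map_smul, map_smul, hda, hdb]; module
    have g2a : g2 a = a := by
      rw [hg2]; simp only [LinearEquiv.mul_apply, hda', map_smul, g1a, hda, smul_smul,
        inv_mul_cancel₀ hl0, one_smul]
    have g2b : g2 b = b + (l * l) • a := by
      rw [hg2]; simp only [LinearEquiv.mul_apply, hdb', map_smul, g1b, map_add, hda, hdb]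
      have e : l • (l⁻¹ • b + l • a) = (l * l⁻¹) • b + (l * l) • a := by module
      rw [e, mul_inv_cancel₀ hl0, one_smul]
    have hg2N : g2 ∈ K := K.mul_mem (K.mul_mem hd.1 hg1.1) (K.inv_mem hd.1)
    have h12 : ∀ v, g1 (g2 v) = g2 (g1 v) + ((l⁻¹ - l * l) * t v) • a := by
      intro v
      rw [hg2v v, map_add, map_add, map_smul, map_smul, g1a, g1b, hg1v v, map_add, map_add,
        map_smul, map_smul, g2a, g2b, hg2v v]
      module
    have htg : ∀ v, t (g2 (g1 v)) = t v := by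
      intro v
      rw [hg2v, map_add, map_add, map_smul, map_smul, hta, htb, hg1v v, map_add, map_add, map_smul,
        map_smul, hta, htb]
      simp
    refine ⟨a, (l⁻¹ - l * l) • t, ha0, ?_, by simp [hta], g1 * g2 * (g2 * g1)⁻¹,
      K.mul_mem (K.mul_mem hg1.1 hg2N) (K.inv_mem (K.mul_mem hg2N hg1.1)), fun v => ?_⟩
    · rw [Ne, smul_eq_zero, not_or]
      refine ⟨?_, ht0⟩
      intro h0
      apply hl3
      have : l⁻¹ = l * l := sub_eq_zero.1 h0
      calc l ^ 3 = l * (l * l) := by ring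
        _ = 1 := by rw [← this, mul_inv_cancel₀ hl0]
    · obtain ⟨u, hu⟩ : ∃ u, (g2 * g1) u = v := ⟨(g2 * g1)⁻¹ v, by
        rw [LinearEquiv.coe_inv, LinearEquiv.apply_symm_apply]⟩
      have hu' : (g2 * g1)⁻¹ v = u := inv_apply_eq' hu
      rw [LinearEquiv.mul_apply, hu', LinearEquiv.mul_apply, h12]
      have hu2 : g2 (g1 u) = v := hu
      rw [hu2, LinearMap.smul_apply, smul_eq_mul, ← htg u, hu2]

/-- K contains the map v ↦ v + f(v) p -/
def Tv (K : Subgroup (V ≃ₗ[F] V)) (f : V →ₗ[F] F) (p : V) : Prop :=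
  ∃ g ∈ K, ∀ v, g v = v + f v • p

theorem Tv_conj {K : Subgroup (V ≃ₗ[F] V)} {f : V →ₗ[F] F} {p : V} (h : Tv K f p)
    {g : V ≃ₗ[F] V} (hg : g ∈ K) : Tv K (f ∘ₗ (g⁻¹ : V ≃ₗ[F] V).toLinearMap) (g p) := by
  obtain ⟨e, he, hev⟩ := h
  refine ⟨g * e * g⁻¹, K.mul_mem (K.mul_mem hg he) (K.inv_mem hg), fun v => ?_⟩
  have e1 : g (g⁻¹ v) = v := by rw [LinearEquiv.coe_inv, LinearEquiv.apply_symm_apply]
  rw [LinearEquiv.mul_apply, LinearEquiv.mul_apply, hev, map_add, map_smul, e1]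
  rfl

theorem Tv_add_right {K : Subgroup (V ≃ₗ[F] V)} {f : V →ₗ[F] F} {p q : V} (hq : f q = 0)
    (h : Tv K f p) (h' : Tv K f q) : Tv K f (p + q) := by
  obtain ⟨e, he, hev⟩ := h
  obtain ⟨e', he', hev'⟩ := h'
  refine ⟨e * e', K.mul_mem he he', fun v => ?_⟩
  rw [LinearEquiv.mul_apply, hev', hev, map_add, map_smul, hq]
  simp only [smul_eq_mul, mul_zero, add_zero]
  module

theorem Tv_neg_right {K : Subgroup (V ≃ₗ[F] V)} {f : V →ₗ[F] F} {p : V} (hp : f p = 0)
    (h : Tv K f p) : Tv K f (-p) := by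
  obtain ⟨e, he, hev⟩ := h
  refine ⟨e⁻¹, K.inv_mem he, fun v => inv_apply_eq' ?_⟩
  rw [hev, map_add, map_smul, map_neg, hp]
  simp only [smul_eq_mul, neg_zero, mul_zero, add_zero]
  module

theorem Tv_sub_right {K : Subgroup (V ≃ₗ[F] V)} {f : V →ₗ[F] F} {p q : V} (hq : f q = 0)
    (h : Tv K f (p + q)) (h' : Tv K f q) : Tv K f p := by
  have := Tv_add_right (by rw [map_neg, hq, neg_zero]) h (Tv_neg_right hq h')
  rwa [add_neg_cancel_right] at this

theorem Tv_add_left {K : Subgroup (V ≃ₗ[F] V)} {f f' : V →ₗ[F] F} {p : V} (hp : f p = 0)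
    (h : Tv K f p) (h' : Tv K f' p) : Tv K (f + f') p := by
  obtain ⟨e, he, hev⟩ := h
  obtain ⟨e', he', hev'⟩ := h'
  refine ⟨e * e', K.mul_mem he he', fun v => ?_⟩
  rw [LinearEquiv.mul_apply, hev', hev, map_add, map_smul, hp, LinearMap.add_apply]
  simp only [smul_eq_mul, mul_zero, add_zero]
  module

theorem Tv_zero {K : Subgroup (V ≃ₗ[F] V)} {p : V} : Tv K 0 p :=
  ⟨1, K.one_mem, fun v => by simp⟩

theorem Tv_smul {K : Subgroup (V ≃ₗ[F] V)} {f : V →ₗ[F] F} {p : V} {c : F} :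
    Tv K f (c • p) ↔ Tv K (c • f) p := by
  unfold Tv
  simp only [LinearMap.smul_apply, smul_eq_mul, smul_smul, mul_comm]

theorem not_ind {p w : V} (hp : p ≠ 0) (h : ¬ Ind F p w) : ∃ c : F, w = c • p := by
  unfold Ind at h
  push Not at h
  obtain ⟨s, t, hst, hne⟩ := h
  have ht : t ≠ 0 := by
    intro ht
    subst ht
    rw [zero_smul, add_zero] at hst
    exact hne ((smul_eq_zero.1 hst).resolve_right hp) rfl
  refine ⟨-(t⁻¹ * s), ?_⟩
  have h1 : t • w = -(s • p) := by rw [eq_neg_iff_add_eq_zero, add_comm]; exact hst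
  have h2 : w = t⁻¹ • (t • w) := by rw [smul_smul, inv_mul_cancel₀ ht, one_smul]
  rw [h2, h1]; module

theorem ind_mem {p w : V} (hp : p ≠ 0) (h : w ∉ Submodule.span F {p}) : Ind F p w := by
  by_contra hn
  obtain ⟨c, hc⟩ := not_ind hp hn
  apply h
  rw [hc]
  exact Submodule.smul_mem _ _ (Submodule.mem_span_singleton_self p)

theorem step4a {K : Subgroup (V ≃ₗ[F] V)}
    (hS : ∀ a b : V, Ind F a b → ∀ x : F, ∃ e ∈ NL K a b, e a = a ∧ e b = b + x • a)
    {f : V →ₗ[F] F} {p w' : V} (hp : p ≠ 0) (hfp : f p = 0) (hT : Tv K f p)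
    (hfw' : f w' = 0) (hpw' : Ind F p w') (w : V) (hw : f w = 0) : Tv K f w := by
  have key : ∀ w, f w = 0 → Ind F p w → Tv K f w := by
    intro w hw hpw
    obtain ⟨e, he, hew, hep⟩ := hS w p hpw.swap 1
    rw [one_smul] at hep
    have h1 := Tv_conj hT he.1
    have h2 : f ∘ₗ (e⁻¹ : V ≃ₗ[F] V).toLinearMap = f := by
      ext v
      have h3 := (Subgroup.inv_mem _ he).2 v
      obtain ⟨x, y, hxy⟩ := Submodule.mem_span_pair.1 h3
      have h4 : e⁻¹ v = v + (x • w + y • p) := by rw [hxy]; abel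
      change f (e⁻¹ v) = f v
      rw [h4]; simp [hw, hfp]
    rw [h2, hep, add_comm] at h1
    exact Tv_sub_right hfp h1 hT
  by_cases hind : Ind F p w
  · exact key w hw hind
  · obtain ⟨c, hc⟩ := not_ind hp hind
    have h1 : Ind F p (w + w') := by
      intro s t hst
      have := hpw' (s + t * c) t (by rw [← hst, hc]; module)
      refine ⟨?_, this.2⟩
      have h2 := this.1
      rw [this.2] at h2
      simpa using h2
    exact Tv_sub_right hfw' (key _ (by rw [map_add, hw, hfw', add_zero]) h1) (key _ hfw' hpw')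

theorem exists_ker_ind [FiniteDimensional F V] (h3 : 3 ≤ Module.finrank F V) (f : V →ₗ[F] F)
    {p : V} (hp : p ≠ 0) : ∃ w, f w = 0 ∧ Ind F p w := by
  by_contra hcon
  push Not at hcon
  have hle : LinearMap.ker f ≤ Submodule.span F {p} := by
    intro w hw
    by_contra hw'
    exact hcon w hw (ind_mem hp hw')
  have h1 := Submodule.finrank_mono hle
  have h2 := LinearMap.finrank_range_add_finrank_ker f
  have h4 : Module.finrank F (LinearMap.range f) ≤ 1 := by
    have := Submodule.finrank_le (LinearMap.range f)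
    simpa using this
  have h5 : Module.finrank F (Submodule.span F {p}) ≤ 1 := by
    have := finrank_span_le_card (R := F) ({p} : Set V)
    simpa using this
  omega

theorem step4 [FiniteDimensional F V] (h3 : 3 ≤ Module.finrank F V)
    {K : Subgroup (V ≃ₗ[F] V)} (hK : Two K)
    (hS : ∀ a b : V, Ind F a b → ∀ x : F, ∃ e ∈ NL K a b, e a = a ∧ e b = b + x • a)
    {f0 : V →ₗ[F] F} {p0 : V} (hp0 : p0 ≠ 0) (hf0 : f0 ≠ 0) (hfp0 : f0 p0 = 0) (hT : Tv K f0 p0)
    (f : V →ₗ[F] F) (p : V) (hfp : f p = 0) : Tv K f p := by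
  by_cases hp : p = 0
  · exact ⟨1, K.one_mem, fun v => by simp [hp]⟩
  -- a nonzero functional for p
  obtain ⟨q0, -, hq0⟩ := exists_ker_ind h3 (0 : V →ₗ[F] F) hp0
  obtain ⟨q, -, hq⟩ := exists_ker_ind h3 (0 : V →ₗ[F] F) hp
  obtain ⟨g, hg, α, β, hα, hβ, hgp, hgq⟩ := hK.two p0 q0 p q hq0 hq
  have hconj : ∀ (g : V ≃ₗ[F] V), g ∈ K → ∀ (α : F) (p p' : V), α ≠ 0 → g p = α • p' →
      ∀ f : V →ₗ[F] F, f p = 0 → Tv K f p →
      (α • (f ∘ₗ (g⁻¹ : V ≃ₗ[F] V).toLinearMap)) p' = 0 ∧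
      Tv K (α • (f ∘ₗ (g⁻¹ : V ≃ₗ[F] V).toLinearMap)) p' := by
    intro g hg α p p' hα hgp f hfp hT
    have h1 := Tv_conj hT hg
    rw [hgp, Tv_smul] at h1
    refine ⟨?_, h1⟩
    have h2 : g⁻¹ p' = α⁻¹ • p := inv_apply_eq' (by
      rw [map_smul, hgp, smul_smul, inv_mul_cancel₀ hα, one_smul])
    rw [LinearMap.smul_apply, LinearMap.comp_apply]
    change α • f (g⁻¹ p') = 0
    rw [h2, map_smul, hfp]; simp
  obtain ⟨ha1, ha2⟩ := hconj g hg α p0 p hα hgp f0 hfp0 hT
  have ha3 : α • (f0 ∘ₗ (g⁻¹ : V ≃ₗ[F] V).toLinearMap) ≠ 0 := by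
    intro h0
    apply hf0
    ext v
    have h1 := LinearMap.congr_fun h0 (g v)
    rw [LinearMap.smul_apply, LinearMap.comp_apply] at h1
    change α • f0 (g⁻¹ (g v)) = 0 at h1
    rw [LinearEquiv.coe_inv, LinearEquiv.symm_apply_apply] at h1
    exact (smul_eq_zero.1 h1).resolve_left hα
  let A : Submodule F (Module.Dual F V) :=
    { carrier := {f | f p = 0 ∧ Tv K f p}
      add_mem' := by
        rintro f f' ⟨h1, h2⟩ ⟨h1', h2'⟩
        exact ⟨by rw [LinearMap.add_apply, h1, h1', add_zero], Tv_add_left h1 h2 h2'⟩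
      zero_mem' := ⟨rfl, Tv_zero⟩
      smul_mem' := by
        rintro c f ⟨h1, h2⟩
        refine ⟨by rw [LinearMap.smul_apply, h1, smul_zero], ?_⟩
        obtain ⟨w', hw', hpw'⟩ := exists_ker_ind h3 f hp
        rw [← Tv_smul]
        exact step4a hS hp h1 h2 hw' hpw' _ (by rw [map_smul, h1, smul_zero]) }
  have hA : ∀ f : Module.Dual F V, f ∈ A ↔ f p = 0 ∧ Tv K f p := fun f => Iff.rfl
  have hco : ∀ w ∈ A.dualCoannihilator, ∃ c : F, w = c • p := by
    intro w hw
    by_contra hne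
    have hpw : Ind F p w := by
      by_contra h
      exact hne (not_ind hp h)
    rw [Submodule.mem_dualCoannihilator] at hw
    apply ha3
    have hall : ∀ f ∈ A, f = 0 := by
      intro f hf
      rw [hA] at hf
      ext u
      rw [LinearMap.zero_apply]
      by_cases hpu : Ind F p u
      · obtain ⟨g, hg, α, β, hα, hβ, hgp, hgu⟩ := hK.two p w p u hpw hpu
        have hgi : g⁻¹ p = α⁻¹ • p := inv_apply_eq' (by
          rw [map_smul, hgp, smul_smul, inv_mul_cancel₀ hα, one_smul])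
        obtain ⟨k1, k2⟩ := hconj g⁻¹ (K.inv_mem hg) α⁻¹ p p (inv_ne_zero hα) hgi f hf.1 hf.2
        have k3 := hw _ ((hA _).2 ⟨k1, k2⟩)
        rw [LinearMap.smul_apply, LinearMap.comp_apply, inv_inv] at k3
        change α⁻¹ • f (g w) = 0 at k3
        rw [hgu, map_smul] at k3
        have k4 := (smul_eq_zero.1 k3).resolve_left (inv_ne_zero hα)
        exact (smul_eq_zero.1 k4).resolve_left hβ
      · obtain ⟨c, hc⟩ := not_ind hp hpu
        rw [hc, map_smul, hf.1, smul_zero]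
    exact hall _ ((hA _).2 ⟨ha1, ha2⟩)
  have hfA : f ∈ A := by
    rw [← Subspace.dualCoannihilator_dualAnnihilator_eq (W := A), Submodule.mem_dualAnnihilator]
    intro w hw
    obtain ⟨c, hc⟩ := hco w hw
    rw [hc, map_smul, hfp, smul_zero]
  exact ((hA f).1 hfA).2

theorem dim2 [FiniteDimensional F V] (h2 : Module.finrank F V = 2)
    {K : Subgroup (V ≃ₗ[F] V)} (hK : Two K) (f : V →ₗ[F] F) (p : V) (hfp : f p = 0) :
    Tv K f p := by
  by_cases hf : f = 0
  · rw [hf]; exact Tv_zero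
  by_cases hp : p = 0
  · exact ⟨1, K.one_mem, fun v => by simp [hp]⟩
  obtain ⟨b, hb⟩ : ∃ b, f b ≠ 0 := by
    by_contra h
    push Not at h
    exact hf (LinearMap.ext h)
  have hind : Ind F p b := by
    by_contra h
    obtain ⟨c, hc⟩ := not_ind hp h
    rw [hc, map_smul, hfp, smul_zero] at hb
    exact hb rfl
  obtain ⟨g, hg, hgp, hgb⟩ := trans1 hK hind (f b)
  refine ⟨g, hg, fun v => ?_⟩
  have li : LinearIndependent F ![p, b] := LinearIndependent.pair_iff.2 hind
  have htop := li.span_eq_top_of_card_eq_finrank (by simp [h2])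
  have hv : v ∈ Submodule.span F (Set.range ![p, b]) := by rw [htop]; trivial
  have hr : Set.range ![p, b] = {p, b} := by
    ext x; simp [Matrix.range_cons, Matrix.range_empty]; exact or_comm
  rw [hr] at hv
  obtain ⟨x, y, rfl⟩ := Submodule.mem_span_pair.1 hv
  simp only [map_add, map_smul, hgp, hgb, hfp, smul_eq_mul, mul_zero, zero_add]
  module

theorem exists_ind [FiniteDimensional F V] (h2 : 2 ≤ Module.finrank F V) :
    ∃ a b : V, Ind F a b := by
  have : Nontrivial V := Module.nontrivial_of_finrank_pos (R := F) (by omega)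
  obtain ⟨a, ha⟩ := exists_ne (0 : V)
  by_contra hcon
  push Not at hcon
  have hle : (⊤ : Submodule F V) ≤ Submodule.span F {a} := by
    intro w _
    by_contra hw'
    exact hcon a w (ind_mem ha hw')
  have h1 := Submodule.finrank_mono hle
  have h5 : Module.finrank F (Submodule.span F {a}) ≤ 1 := by
    have := finrank_span_le_card (R := F) ({a} : Set V)
    simpa using this
  rw [finrank_top] at h1
  omega

/-- in dimension three, commutators act trivially on V/L -/
theorem dim3 [FiniteDimensional F V] (h3 : Module.finrank F V = 3)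
    {K : Subgroup (V ≃ₗ[F] V)} (hK : Two K) (l : F) (hl0 : l ≠ 0) (hl2 : l * l ≠ 1) :
    ∃ (a b : V) (h : V ≃ₗ[F] V), h ∈ NL K a b ∧ ∃ v0 ∈ Submodule.span F {a, b},
      ∀ c : F, h v0 ≠ c • v0 := by
  obtain ⟨a, b, hab⟩ := exists_ind (F := F) (V := V) (by omega)
  have hrank : Module.finrank F (Submodule.span F {a, b}) = 2 := by
    have li : LinearIndependent F ![a, b] := LinearIndependent.pair_iff.2 hab
    have := finrank_span_eq_card li
    have hr : Set.range ![a, b] = {a, b} := by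
      ext x; simp [Matrix.range_cons, Matrix.range_empty]; exact or_comm
    rw [hr] at this
    simpa using this
  have hav : a ∈ Submodule.span F {a, b} := Submodule.subset_span (by simp)
  have hbv : b ∈ Submodule.span F {a, b} := Submodule.subset_span (by simp)
  -- a functional with kernel the line
  obtain ⟨φ, hφ0, hφ⟩ := Submodule.exists_dual_map_eq_bot_of_lt_top
    (p := Submodule.span F {a, b}) (by
      rw [lt_top_iff_ne_top]
      intro htop
      rw [htop, finrank_top] at hrank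
      omega) inferInstance
  rw [← LinearMap.le_ker_iff_map] at hφ
  have hker : LinearMap.ker φ = Submodule.span F {a, b} := by
    symm
    apply Submodule.eq_of_le_of_finrank_le hφ
    have h2 := LinearMap.finrank_range_add_finrank_ker φ
    have hr : 0 < Module.finrank F (LinearMap.range φ) := by
      rw [Module.finrank_pos_iff, Submodule.nontrivial_iff_ne_bot]
      intro h
      exact hφ0 (LinearMap.range_eq_bot.1 h)
    omega
  obtain ⟨c0, hc0⟩ : ∃ c, φ c ≠ 0 := by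
    by_contra h
    push Not at h
    exact hφ0 (LinearMap.ext h)
  have hz : ∀ g : V ≃ₗ[F] V, g a ∈ Submodule.span F {a, b} → g b ∈ Submodule.span F {a, b} →
      ∃ z : F, ∀ v, φ (g v) = z * φ v := by
    intro g hga hgb
    refine ⟨φ (g c0) * (φ c0)⁻¹, fun v => ?_⟩
    have h1 : v - (φ v * (φ c0)⁻¹) • c0 ∈ LinearMap.ker φ := by
      rw [LinearMap.mem_ker, map_sub, map_smul, smul_eq_mul, mul_assoc, inv_mul_cancel₀ hc0]
      ring
    rw [hker] at h1
    obtain ⟨x, y, hxy⟩ := Submodule.mem_span_pair.1 h1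
    have h2 : g (v - (φ v * (φ c0)⁻¹) • c0) ∈ LinearMap.ker φ := by
      rw [← hxy, map_add, map_smul, map_smul, hker]
      exact Submodule.add_mem _ (Submodule.smul_mem _ _ hga) (Submodule.smul_mem _ _ hgb)
    rw [LinearMap.mem_ker, map_sub, map_sub, map_smul, map_smul, smul_eq_mul, sub_eq_zero] at h2
    rw [h2]; ring
  obtain ⟨g1, hg1, g1a, g1b⟩ := diagL (K := K) (a := a) (b := b) (fun x => trans1 hK hab x)
    (fun x => trans1 hK hab.swap x) l hl0
  obtain ⟨g2, hg2, g2a, g2b⟩ := trans1 hK hab 1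
  obtain ⟨z1, hz1⟩ := hz g1 (by rw [g1a]; exact Submodule.smul_mem _ _ hav)
    (by rw [g1b]; exact Submodule.smul_mem _ _ hbv)
  obtain ⟨z2, hz2⟩ := hz g2 (by rw [g2a]; exact hav)
    (by rw [g2b]; exact Submodule.add_mem _ hbv (Submodule.smul_mem _ _ hav))
  have hh : ∀ u, (g1 * g2 * (g2 * g1)⁻¹) (g2 (g1 u)) = g1 (g2 u) := by
    intro u
    have : (g2 * g1)⁻¹ (g2 (g1 u)) = u := inv_apply_eq' rfl
    rw [LinearEquiv.mul_apply, this]; rfl
  refine ⟨a, b, g1 * g2 * (g2 * g1)⁻¹, ⟨K.mul_mem (K.mul_mem hg1 hg2)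
    (K.inv_mem (K.mul_mem hg2 hg1)), fun v => ?_⟩, a + b, Submodule.add_mem _ hav hbv, ?_⟩
  · obtain ⟨u, hu⟩ : ∃ u, g2 (g1 u) = v := ⟨(g2 * g1)⁻¹ v, by
      change (g2 * g1) ((g2 * g1)⁻¹ v) = v
      rw [LinearEquiv.coe_inv, LinearEquiv.apply_symm_apply]⟩
    rw [← hu, hh, ← hker, LinearMap.mem_ker, map_sub, hz1, hz2, hz2, hz1]
    ring
  · intro c hc
    have h1 : g2 (g1 (l • b)) = a + b := by
      rw [map_smul, g1b, smul_smul, mul_inv_cancel₀ hl0, one_smul, g2b]; module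
    have h2 : g1 (g2 (l • b)) = (l * l) • a + b := by
      rw [map_smul, g2b, map_smul, map_add, map_smul, g1b, g1a]
      have e : l • (l⁻¹ • b + (1 : F) • l • a) = (l * l) • a + (l * l⁻¹) • b := by module
      rw [e, mul_inv_cancel₀ hl0, one_smul]
    rw [← h1, hh, h2, h1] at hc
    have h3 := hab (l * l - c) (1 - c) (by
      have : (l * l - c) • a + (1 - c) • b = ((l * l) • a + b) - c • (a + b) := by module
      rw [this, hc, sub_self])
    apply hl2
    rw [sub_eq_zero.1 h3.1, sub_eq_zero.1 h3.2]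

theorem exists_l [Infinite F] : ∃ l : F, l ≠ 0 ∧ l ^ 4 ≠ 1 ∧ l ^ 3 ≠ 1 := by
  classical
  let P : Polynomial F := Polynomial.X * (Polynomial.X ^ 4 - 1) * (Polynomial.X ^ 3 - 1)
  have hP : P ≠ 0 := by
    refine mul_ne_zero (mul_ne_zero Polynomial.X_ne_zero ?_) ?_
    · exact Polynomial.X_pow_sub_C_ne_zero (by norm_num) 1
    · exact Polynomial.X_pow_sub_C_ne_zero (by norm_num) 1
  obtain ⟨l, hl⟩ := Polynomial.exists_eval_ne_zero_of_natDegree_lt_card P hP (by
    exact lt_of_lt_of_le (Cardinal.natCast_lt_aleph0) (Cardinal.aleph0_le_mk F))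
  simp only [P, Polynomial.eval_mul, Polynomial.eval_sub, Polynomial.eval_pow, Polynomial.eval_X,
    Polynomial.eval_one] at hl
  refine ⟨l, ?_, ?_, ?_⟩
  · rintro rfl; simp at hl
  · intro h; simp [h] at hl
  · intro h; simp [h] at hl

theorem all_tv [Infinite F] [FiniteDimensional F V] (h2 : 2 ≤ Module.finrank F V)
    {K : Subgroup (V ≃ₗ[F] V)} (hK : Two K)
    (hcond : Module.finrank F V ≤ 3 ∨ ∃ (a b : V) (h : V ≃ₗ[F] V), h ∈ NL K a b ∧
      ∃ v0 ∈ Submodule.span F {a, b}, ∀ c : F, h v0 ≠ c • v0)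
    (f : V →ₗ[F] F) (p : V) (hfp : f p = 0) : Tv K f p := by
  rcases Nat.lt_or_ge (Module.finrank F V) 3 with h | h3
  · exact dim2 (by omega) hK f p hfp
  obtain ⟨l, hl0, hl4, hl3⟩ := exists_l (F := F)
  have hl2 : l * l ≠ 1 := by
    intro h; apply hl4
    calc l ^ 4 = (l * l) * (l * l) := by ring
      _ = 1 := by rw [h, one_mul]
  have hc : ∃ (a b : V) (h : V ≃ₗ[F] V), h ∈ NL K a b ∧
      ∃ v0 ∈ Submodule.span F {a, b}, ∀ c : F, h v0 ≠ c • v0 := by
    rcases hcond with h' | h'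
    · exact dim3 (by omega) hK l hl0 hl2
    · exact h'
  obtain ⟨a0, b0, h, hh, v0, hv0, hns⟩ := hc
  obtain ⟨a1, b1, h1, he⟩ := step2a hK hh hv0 hns l hl0 hl4
  have hS : ∀ a b : V, Ind F a b → ∀ x : F, ∃ e ∈ NL K a b, e a = a ∧ e b = b + x • a :=
    fun a b hab x => step2 hK h1 he hab x
  obtain ⟨p0, f0, hp0, hf0, hfp0, hT⟩ := step3 h1 hS l hl0 hl3
  exact step4 h3 hK hS hp0 hf0 hfp0 hT f p hfp


def InK {n : ℕ} (K : Subgroup ((Fin n → F) ≃ₗ[F] (Fin n → F)))
    (M : Matrix (Fin n) (Fin n) F) : Prop :=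
  ∃ g ∈ K, ∀ v, g v = M.mulVec v

section
variable {n : ℕ} {K : Subgroup ((Fin n → F) ≃ₗ[F] (Fin n → F))}

theorem InK.mul {M N : Matrix (Fin n) (Fin n) F} (h : InK K M) (h' : InK K N) :
    InK K (M * N) := by
  obtain ⟨g, hg, h1⟩ := h
  obtain ⟨g', hg', h1'⟩ := h'
  exact ⟨g * g', K.mul_mem hg hg', fun v => by
    rw [LinearEquiv.mul_apply, h1', h1, Matrix.mulVec_mulVec]⟩

theorem InK_transvec (hT : ∀ (f : (Fin n → F) →ₗ[F] F) (p : Fin n → F), f p = 0 → Tv K f p)
    {i j : Fin n} (hij : i ≠ j) (c : F) : InK K (Matrix.transvection i j c) := by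
  obtain ⟨g, hg, hgv⟩ := hT (c • LinearMap.proj j) (Pi.single i 1)
    (by simp [Pi.single_apply, hij.symm])
  refine ⟨g, hg, fun v => ?_⟩
  rw [hgv, Matrix.transvection, Matrix.add_mulVec, Matrix.one_mulVec]
  congr 1
  ext k
  rcases eq_or_ne i k with rfl | hk
  · simp [Matrix.mulVec, dotProduct, Matrix.single_apply, Pi.single_apply]
  · simp [Matrix.mulVec, dotProduct, Matrix.single_apply, Pi.single_apply, hk, hk.symm]

theorem InK_diag2 (hT : ∀ (f : (Fin n → F) →ₗ[F] F) (p : Fin n → F), f p = 0 → Tv K f p)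
    {i j : Fin n} (hij : i ≠ j) (c : F) (hc : c ≠ 0) :
    InK K (Matrix.diagonal (fun k => if k = i then c else if k = j then c⁻¹ else 1)) := by
  let K' : Subgroup ((Fin n → F) ≃ₗ[F] (Fin n → F)) :=
    { carrier := {g | g ∈ K ∧ ∀ k, k ≠ i → k ≠ j → g (Pi.single k 1) = Pi.single k 1}
      one_mem' := ⟨K.one_mem, fun k _ _ => rfl⟩
      mul_mem' := by
        rintro g h ⟨hg, hg'⟩ ⟨hh, hh'⟩
        exact ⟨K.mul_mem hg hh, fun k h1 h2 => by
          rw [LinearEquiv.mul_apply, hh' k h1 h2, hg' k h1 h2]⟩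
      inv_mem' := by
        rintro g ⟨hg, hg'⟩
        exact ⟨K.inv_mem hg, fun k h1 h2 => inv_apply_eq' (hg' k h1 h2)⟩ }
  have key : ∀ i' j' : Fin n, i' ≠ j' → (i' = i ∨ i' = j) → (j' = i ∨ j' = j) → ∀ x : F, ∃ g ∈ K',
      g (Pi.single i' 1) = Pi.single i' 1 ∧ g (Pi.single j' 1) = Pi.single j' 1 +
        x • (Pi.single i' 1 : Fin n → F) := by
    intro i' j' hne hi' hj' x
    obtain ⟨g, hg, hgv⟩ := hT (x • LinearMap.proj j') (Pi.single i' 1)
      (by simp [Pi.single_apply, hne.symm])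
    refine ⟨g, ⟨hg, fun k h1 h2 => ?_⟩, ?_, ?_⟩
    · have : k ≠ j' := by rcases hj' with rfl | rfl <;> assumption
      rw [hgv]; simp [Pi.single_apply, this.symm]
    · rw [hgv]; simp [Pi.single_apply, hne.symm]
    · rw [hgv]; simp
  obtain ⟨g, ⟨hg, hg'⟩, hgi, hgj⟩ := diagL (K := K') (a := Pi.single i 1) (b := Pi.single j 1)
    (key i j hij (Or.inl rfl) (Or.inr rfl)) (key j i hij.symm (Or.inr rfl) (Or.inl rfl)) c hc
  refine ⟨g, hg, fun v => ?_⟩
  have : g.toLinearMap = Matrix.mulVecLin (Matrix.diagonal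
      (fun k => if k = i then c else if k = j then c⁻¹ else 1)) := by
    apply LinearMap.pi_ext'
    intro k
    apply LinearMap.ext_ring
    rw [LinearMap.comp_apply, LinearMap.comp_apply, LinearMap.single_apply,
      Matrix.mulVecLin_apply, Matrix.mulVec_single_one]
    change g (Pi.single k 1) = _
    by_cases h1 : k = i
    · subst h1
      rw [hgi]
      ext m
      by_cases h : m = k
      · subst h; simp [Matrix.col_apply]
      · simp [Matrix.col_apply, Matrix.diagonal_apply, Pi.single_apply, h]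
    by_cases h2 : k = j
    · subst h2
      rw [hgj]
      ext m
      by_cases h : m = k
      · subst h; simp [Matrix.col_apply, h1]
      · simp [Matrix.col_apply, Matrix.diagonal_apply, Pi.single_apply, h]
    rw [hg' k h1 h2]
    ext m
    by_cases h : m = k
    · subst h; simp [Matrix.col_apply, h1, h2]
    · simp [Matrix.col_apply, Matrix.diagonal_apply, Pi.single_apply, h]
  exact LinearMap.congr_fun this v

theorem InK_diag (hT : ∀ (f : (Fin n → F) →ₗ[F] F) (p : Fin n → F), f p = 0 → Tv K f p)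
    (i0 : Fin n) (D : Fin n → F) (hD : ∀ i, D i ≠ 0) (s : Finset (Fin n)) (hs : i0 ∉ s) :
    InK K (Matrix.diagonal (fun k => if k = i0 then (∏ j ∈ s, D j)⁻¹ else
      if k ∈ s then D k else 1)) := by
  classical
  induction s using Finset.induction_on with
  | empty =>
    refine ⟨1, K.one_mem, fun v => ?_⟩
    have : (fun k : Fin n => if k = i0 then (∏ j ∈ (∅ : Finset (Fin n)), D j)⁻¹ else
      if k ∈ (∅ : Finset (Fin n)) then D k else 1) = fun _ => 1 := by
      ext k; simp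
    rw [this]; simp
  | insert a s ha ih =>
    have hai : a ≠ i0 := by
      rintro rfl; exact hs (Finset.mem_insert_self _ _)
    have h1 := (InK_diag2 hT hai (D a) (hD a)).mul (ih (fun h => hs (Finset.mem_insert_of_mem h)))
    rw [Matrix.diagonal_mul_diagonal] at h1
    convert h1 using 3 with k
    by_cases hk : k = i0
    · subst hk
      simp [Finset.prod_insert ha, hai.symm]; exact mul_comm _ _
    · by_cases hk' : k = a
      · subst hk'
        simp [hk, ha]
      · simp [hk, hk']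

theorem InK_SL (hT : ∀ (f : (Fin n → F) →ₗ[F] F) (p : Fin n → F), f p = 0 → Tv K f p)
    (hn : 0 < n) (M : Matrix (Fin n) (Fin n) F) (hM : M.det = 1) : InK K M := by
  classical
  apply Matrix.diagonal_transvection_induction (InK K) M
  · intro D hD
    rw [hM, Matrix.det_diagonal] at hD
    have hD' : ∀ i, D i ≠ 0 := by
      intro i h
      rw [Finset.prod_eq_zero (Finset.mem_univ i) h] at hD
      exact zero_ne_one hD
    have h1 := InK_diag hT ⟨0, hn⟩ D hD' (Finset.univ.erase ⟨0, hn⟩) (by simp)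
    convert h1 using 3 with k
    by_cases hk : k = ⟨0, hn⟩
    · rw [if_pos hk, hk]
      rw [← Finset.mul_prod_erase _ _ (Finset.mem_univ (⟨0, hn⟩ : Fin n))] at hD
      exact eq_inv_of_mul_eq_one_left hD
    · simp [hk]
  · intro t
    exact InK_transvec hT t.hij t.c
  · intro A B hA hB
    exact hA.mul hB

end


section transfer
open scoped LinearAlgebra.Projectivization MatrixGroups
open Matrix

/-- `A` is invertible, has an invariant two-dimensional subspace `L` (a line of the projective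
space) on which it does not act as a scalar, while it acts as a scalar on the quotient by `L`. -/
def LineElement {n : ℕ} (A : GL (Fin n) F) : Prop :=
  ∃ L : Submodule F (Fin n → F), Module.finrank F L = 2 ∧ (∀ v ∈ L, A • v ∈ L) ∧
    (∃ v ∈ L, ∀ c : F, A • v ≠ c • v) ∧ ∃ c : F, ∀ v, A • v - c • v ∈ L

/-- the full preimage of G in the linear group -/
def KG {n : ℕ} (G : Subgroup PGL(n, F)) : Subgroup ((Fin n → F) ≃ₗ[F] (Fin n → F)) where
  carrier := {g | ∃ A : GL (Fin n) F, ProjGenLinGroup.mk A ∈ G ∧ ∀ v, g v = A • v}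
  one_mem' := ⟨1, by rw [map_one]; exact G.one_mem, fun v => by rw [one_smul]; rfl⟩
  mul_mem' := by
    rintro g h ⟨A, hA, hgA⟩ ⟨B, hB, hhB⟩
    exact ⟨A * B, by rw [map_mul]; exact G.mul_mem hA hB, fun v => by
      rw [LinearEquiv.mul_apply, hhB, hgA, mul_smul]⟩
  inv_mem' := by
    rintro g ⟨A, hA, hgA⟩
    refine ⟨A⁻¹, by rw [map_inv]; exact G.inv_mem hA, fun v => ?_⟩
    refine inv_apply_eq' ?_
    rw [hgA, smul_inv_smul]

theorem mem_KG {n : ℕ} {G : Subgroup PGL(n, F)} {g : (Fin n → F) ≃ₗ[F] (Fin n → F)} :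
    g ∈ KG G ↔ ∃ A : GL (Fin n) F, ProjGenLinGroup.mk A ∈ G ∧ ∀ v, g v = A • v := Iff.rfl

theorem Ind_ne {n : ℕ} {a b : Fin n → F} (h : Ind F a b) : ∃ (ha : a ≠ 0) (hb : b ≠ 0),
    Projectivization.mk F a ha ≠ Projectivization.mk F b hb := by
  have ha : a ≠ 0 := by
    rintro rfl
    exact one_ne_zero (h 1 0 (by simp)).1
  have hb : b ≠ 0 := by
    rintro rfl
    exact one_ne_zero (h 0 1 (by simp)).2
  refine ⟨ha, hb, fun h1 => ?_⟩
  rw [Projectivization.mk_eq_mk_iff'] at h1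
  obtain ⟨c, hc⟩ := h1
  exact one_ne_zero (h 1 (-c) (by rw [← hc]; module)).1

theorem Two_KG {n : ℕ} {G : Subgroup PGL(n, F)}
    (h : MulAction.IsMultiplyPretransitive G (ℙ F (Fin n → F)) 2) : Two (KG G) where
  scal := by
    intro c hc
    refine ⟨LinearEquiv.smulOfNeZero F _ c hc, ⟨Matrix.GeneralLinearGroup.scalar (Fin n)
      (Units.mk0 c hc), by rw [ProjGenLinGroup.mk_scalar]; exact G.one_mem, fun v => ?_⟩,
      fun v => rfl⟩
    change c • v = (Matrix.scalar (Fin n) c).mulVec v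
    ext k
    simp [Matrix.mulVec_diagonal]
  two := by
    intro a b c d hab hcd
    obtain ⟨ha, hb, hab'⟩ := Ind_ne hab
    obtain ⟨hc, hd, hcd'⟩ := Ind_ne hcd
    rw [MulAction.is_two_pretransitive_iff] at h
    obtain ⟨⟨g, hg⟩, h1, h2⟩ := h hab' hcd'
    obtain ⟨A, rfl⟩ := ProjGenLinGroup.mk_surjective g
    have h1' : Projectivization.mk F (A • a) ((smul_ne_zero_iff_ne A).2 ha) =
      Projectivization.mk F c hc := h1
    have h2' : Projectivization.mk F (A • b) ((smul_ne_zero_iff_ne A).2 hb) =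
      Projectivization.mk F d hd := h2
    rw [Projectivization.mk_eq_mk_iff] at h1' h2'
    obtain ⟨α, hα⟩ := h1'
    obtain ⟨β, hβ⟩ := h2'
    exact ⟨DistribMulAction.toLinearEquiv F (Fin n → F) A, ⟨A, hg, fun v => rfl⟩, α, β,
      α.ne_zero, β.ne_zero, hα.symm, hβ.symm⟩

theorem KG_NL {n : ℕ} (hn : 3 ≤ n) {G : Subgroup PGL(n, F)}
    (hs : ∀ c : F, c ≠ 0 → ∃ g ∈ KG G, ∀ v, g v = c • v)
    {A : GL (Fin n) F} (hA : ProjGenLinGroup.mk A ∈ G) (hL : LineElement A) :
    ∃ (a b : Fin n → F) (h : (Fin n → F) ≃ₗ[F] (Fin n → F)), h ∈ NL (KG G) a b ∧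
      ∃ v0 ∈ Submodule.span F {a, b}, ∀ c : F, h v0 ≠ c • v0 := by
  obtain ⟨L, hL2, hinv, ⟨v0, hv0, hns⟩, c, hc⟩ := hL
  have hc0 : c ≠ 0 := by
    rintro rfl
    have htop : (⊤ : Submodule F (Fin n → F)) ≤ L := by
      intro w _
      have := hc (A⁻¹ • w)
      rwa [zero_smul, sub_zero, smul_inv_smul] at this
    have := Submodule.finrank_mono htop
    rw [finrank_top, hL2, Module.finrank_fin_fun] at this
    omega
  obtain ⟨z, hz, hzv⟩ := hs c⁻¹ (inv_ne_zero hc0)
  let B := Module.finBasisOfFinrankEq F L hL2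
  have hspan : Submodule.span F {(B 0 : Fin n → F), (B 1 : Fin n → F)} = L := by
    apply le_antisymm
    · rw [Submodule.span_le]
      rintro x (rfl | rfl)
      · exact (B 0).2
      · exact (B 1).2
    · intro x hx
      rw [Submodule.mem_span_pair]
      refine ⟨B.repr ⟨x, hx⟩ 0, B.repr ⟨x, hx⟩ 1, ?_⟩
      have := B.sum_repr ⟨x, hx⟩
      rw [Fin.sum_univ_two] at this
      exact congrArg Subtype.val this
  refine ⟨B 0, B 1, z * DistribMulAction.toLinearEquiv F (Fin n → F) A,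
    ⟨(KG G).mul_mem hz ⟨A, hA, fun v => rfl⟩, fun v => ?_⟩, v0, by rwa [hspan], fun d hd => ?_⟩
  · rw [hspan, LinearEquiv.mul_apply, hzv]
    change c⁻¹ • (A • v) - v ∈ L
    have e : c⁻¹ • (A • v) - v = c⁻¹ • (A • v - c • v) := by
      rw [smul_sub, smul_smul, inv_mul_cancel₀ hc0, one_smul]
    rw [e]
    exact L.smul_mem _ (hc v)
  · rw [LinearEquiv.mul_apply, hzv] at hd
    change c⁻¹ • (A • v0) = d • v0 at hd
    apply hns (c * d)
    rw [mul_smul, ← hd, smul_smul, mul_inv_cancel₀ hc0, one_smul]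

theorem forward [Infinite F] {n : ℕ} (hn : 2 ≤ n) (G : Subgroup PGL(n, F))
    (h2 : MulAction.IsMultiplyPretransitive G (ℙ F (Fin n → F)) 2)
    (hcond : n ≤ 3 ∨ ∃ A : GL (Fin n) F, ProjGenLinGroup.mk A ∈ G ∧ LineElement A) :
    (ProjectiveSpecialLinearGroup.toPGL (n := Fin n) (R := F)).range ≤ G := by
  have hK := Two_KG h2
  have hT : ∀ (f : (Fin n → F) →ₗ[F] F) (p : Fin n → F), f p = 0 → Tv (KG G) f p := by
    apply all_tv (by rw [Module.finrank_fin_fun]; exact hn) hK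
    rw [Module.finrank_fin_fun]
    rcases Nat.lt_or_ge 3 n with h | h
    · rcases hcond with h' | ⟨A, hA, hL⟩
      · omega
      · exact Or.inr (KG_NL (by omega) hK.scal hA hL)
    · exact Or.inl h
  rintro _ ⟨x, rfl⟩
  obtain ⟨S, rfl⟩ := QuotientGroup.mk_surjective x
  rw [ProjectiveSpecialLinearGroup.toPGL_mk]
  obtain ⟨g, ⟨A, hA, hgA⟩, hg⟩ := InK_SL hT (by omega) S.1 S.2
  have : SpecialLinearGroup.toGL S = A := by
    apply Units.ext
    apply Matrix.ext_of_mulVec_single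
    intro i
    have h1 := hg (Pi.single i 1)
    rw [hgA] at h1
    exact h1.symm
  rw [this]
  exact hA

theorem backward [Infinite F] {n : ℕ} (hn : 2 ≤ n) (G : Subgroup PGL(n, F))
    (h : (ProjectiveSpecialLinearGroup.toPGL (n := Fin n) (R := F)).range ≤ G) :
    MulAction.IsMultiplyPretransitive G (ℙ F (Fin n → F)) 2 ∧
    (n ≤ 3 ∨ ∃ A : GL (Fin n) F, ProjGenLinGroup.mk A ∈ G ∧ LineElement A) := by
  have hS : ∀ s : SpecialLinearGroup (Fin n) F, ProjGenLinGroup.mk (SpecialLinearGroup.toGL s) ∈ G :=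
    fun s => h ⟨QuotientGroup.mk s, rfl⟩
  constructor
  · rw [MulAction.is_two_pretransitive_iff]
    intro a b c d hab hcd
    have h2 : MulAction.IsMultiplyPretransitive (SpecialLinearGroup (Fin n) F)
      (ℙ F (Fin n → F)) 2 := inferInstance
    rw [MulAction.is_two_pretransitive_iff] at h2
    obtain ⟨s, h1, h2⟩ := h2 hab hcd
    have key : ∀ p : ℙ F (Fin n → F), (⟨_, hS s⟩ : G) • p = s • p := by
      intro p
      induction p using Projectivization.ind with
      | _ v hv => rfl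
    exact ⟨⟨_, hS s⟩, by rw [key, h1], by rw [key, h2]⟩
  · rcases Nat.lt_or_ge 3 n with h3 | h3
    · right
      let i0 : Fin n := ⟨0, by omega⟩
      let i1 : Fin n := ⟨1, by omega⟩
      have hne : i0 ≠ i1 := by
        intro h; simpa [i0, i1] using congrArg Fin.val h
      let s : SpecialLinearGroup (Fin n) F := ⟨Matrix.transvection i0 i1 1,
        Matrix.det_transvection_of_ne _ _ hne _⟩
      have hs : ∀ v : Fin n → F, SpecialLinearGroup.toGL s • v = v + v i1 • Pi.single i0 1 := by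
        intro v
        change (Matrix.transvection i0 i1 (1 : F)).mulVec v = _
        rw [Matrix.transvection, Matrix.add_mulVec, Matrix.one_mulVec]
        congr 1
        ext k
        rcases eq_or_ne i0 k with rfl | hk
        · simp [Matrix.mulVec, dotProduct, Matrix.single_apply, Pi.single_apply]
        · simp [Matrix.mulVec, dotProduct, Matrix.single_apply, Pi.single_apply, hk, hk.symm]
      refine ⟨SpecialLinearGroup.toGL s, hS s,
        Submodule.span F (Set.range ![(Pi.single i0 1 : Fin n → F), Pi.single i1 1]), ?_, ?_, ?_, ?_⟩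
      · rw [finrank_span_eq_card]
        · simp
        · rw [LinearIndependent.pair_iff]
          intro x y hxy
          have h0 := congrFun hxy i0
          have h1 := congrFun hxy i1
          simp [hne, hne.symm] at h0 h1
          exact ⟨h0, h1⟩
      · intro v hv
        rw [hs]
        exact Submodule.add_mem _ hv (Submodule.smul_mem _ _ (Submodule.subset_span ⟨0, rfl⟩))
      · refine ⟨Pi.single i1 1, Submodule.subset_span ⟨1, rfl⟩, fun c hc => ?_⟩
        rw [hs] at hc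
        have h0 := congrFun hc i0
        simp [hne, hne.symm] at h0
      · refine ⟨1, fun v => ?_⟩
        rw [hs, one_smul, add_sub_cancel_left]
        exact Submodule.smul_mem _ _ (Submodule.subset_span ⟨0, rfl⟩)
    · exact Or.inl h3

end transfer

open scoped LinearAlgebra.Projectivization MatrixGroups
open Matrix

theorem result {F : Type*} [Field F] [Infinite F] (n : ℕ) (hn : 2 ≤ n)
    (G : Subgroup PGL(n, F)) :
    (ProjectiveSpecialLinearGroup.toPGL (n := Fin n) (R := F)).range ≤ G ↔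
      MulAction.IsMultiplyPretransitive G (ℙ F (Fin n → F)) 2 ∧
        (n ≤ 3 ∨ ∃ A : GL (Fin n) F, ProjGenLinGroup.mk A ∈ G ∧ LineElement A) :=
  ⟨backward hn G, fun h => forward hn G h.1 h.2⟩

end Pool.Agent.Results.MP_c32cfc_al.TwoTransitive
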